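import Pool.Agent.H99.Ucp8

set_option autoImplicit false

open Filter Topology Set MeasureTheory Metric
open scoped ENNReal ContDiff

namespace Pool.Agent.Results.MP_b3ccf3_an.SUCP

/-- `ℂ^n` with the Euclidean norm. -/
abbrev Cn (n : ℕ) : Type := EuclideanSpace ℂ (Fin n)

/-- `f ∈ L^s_loc(Ω)`. -/
def LpLoc {n : ℕ} {Y : Type} [NormedAddCommGroup Y] (s : ℝ) (Ω : Set (Cn n)) (f : Cn n → Y) : Prop :=
  ∀ K ⊆ Ω, IsCompact K → MemLp f (ENNReal.ofReal s) (volume.restrict K)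

/-- `G` is the distributional (real) derivative of `u` in `Ω`. -/
def WeakD {n m : ℕ} (Ω : Set (Cn n)) (u : Cn n → Cn m) (G : Cn n → Cn n →L[ℝ] Cn m) : Prop :=
  ∀ φ : Cn n → ℝ, ContDiff ℝ ∞ φ → HasCompactSupport φ → tsupport φ ⊆ Ω → ∀ v : Cn n,
    ∫ x, fderiv ℝ φ x v • u x = -∫ x, φ x • G x v

/-- Euclidean norm of all `∂u_k/∂z̄_j = (∂_{x_j} u_k + i ∂_{y_j} u_k)/2`, for real derivative `L`. -/
noncomputable def dbarNorm {n m : ℕ} (L : Cn n →L[ℝ] Cn m) : ℝ :=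
  √(∑ j, ‖(1 / 2 : ℂ) • (L (EuclideanSpace.single j 1) +
    Complex.I • L (EuclideanSpace.single j Complex.I))‖ ^ 2)

/-- `r^{-N} ∫_{B(z₀,r)} |u|^s → 0` as `r → 0+`, for every `N`. -/
def Vanishes {n m : ℕ} (s : ℝ) (u : Cn n → Cn m) (z₀ : Cn n) : Prop :=
  ∀ N : ℕ, Tendsto (fun r : ℝ => (∫⁻ x in ball z₀ r, ‖u x‖ₑ ^ s) / ENNReal.ofReal (r ^ N))
    (𝓝[>] 0) (𝓝 0)

theorem result (n m : ℕ) (hn : 2 ≤ n) (Ω : Set (Cn n)) (hΩ : IsOpen Ω) (hc : IsConnected Ω)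
    (u : Cn n → Cn m) (G : Cn n → Cn n →L[ℝ] Cn m) (V : Cn n → ℝ)
    (hu : LpLoc (4 * n / (2 * n + 1)) Ω u) (hG : LpLoc (4 * n / (2 * n + 1)) Ω G)
    (hw : WeakD Ω u G) (hV : LpLoc (2 * n) Ω V)
    (hle : ∀ᵐ x, x ∈ Ω → dbarNorm (G x) ≤ V x * ‖u x‖)
    (z₀ : Cn n) (hz : z₀ ∈ Ω) (hvan : Vanishes (4 * n / (2 * n - 1)) u z₀) :
    ∀ᵐ x, x ∈ Ω → u x = 0 := by
  have n2 : (2 : ℝ) ≤ n := by exact_mod_cast hn
  have fr : Module.finrank ℂ (Cn n) = n := by simp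
  have p1 : (1 : ℝ≥0∞) ≤ ENNReal.ofReal (4 * n / (2 * n + 1)) := by
    rw [ENNReal.one_le_ofReal, le_div_iff₀ (by positivity)]; linarith
  refine H99.Ucp.glob volume (fr.symm ▸ hn) hΩ hc.isPreconnected (G := G) (V := fun x => 2 * V x)
    (fun K s c => ?_) (fun K s c => ?_) hw (fun K s c => ?_) (hle.mono fun y hy k x => ?_) hz
    (H99.Ucp.v1 volume ?_ ?_ hvan)
  · have : IsFiniteMeasure (volume.restrict K) := isFiniteMeasure_restrict.2 c.measure_lt_top.ne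
    exact (hu K s c).integrable p1
  · have : IsFiniteMeasure (volume.restrict K) := isFiniteMeasure_restrict.2 c.measure_lt_top.ne
    exact (hG K s c).integrable p1
  · rw [fr]; exact (hV K s c).const_mul 2
  · refine (H99.Ucp.cs2 (G y) x).trans ?_
    have := hy k
    unfold dbarNorm at this
    nlinarith [norm_nonneg x, mul_le_mul_of_nonneg_right this (norm_nonneg x)]
  · rw [le_div_iff₀ (by linarith)]; linarith
  · rw [div_le_iff₀ (by linarith)]; linarith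

end Pool.Agent.Results.MP_b3ccf3_an.SUCP
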